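import Pool.Agent.Helper10.QRH.StC

/-! QRH-C15: conclusion of Part C. -/

set_option autoImplicit false
open Filter Topology
open scoped Classical

namespace Pool.Agent.Helper15.QRH

open Pool.Agent.Helper10.QRH

lemma ft_one {P : Par} {k0 : ℕ} (S : P.Sel k0) (t : ℕ × ℕ → ℝ) : S.ft t 1 = 1 := by
  simp [Par.Sel.ft]

lemma ft_mul {P : Par} {k0 : ℕ} (S : P.Sel k0) (t : ℕ × ℕ → ℝ) {m n : ℕ} (hm : 0 < m)
    (hn : 0 < n) : S.ft t (m * n) = S.ft t m * S.ft t n := by
  unfold Par.Sel.ft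
  rw [((Nat.perm_primeFactorsList_mul hm.ne' hn.ne').map _).prod_eq, List.map_append,
    List.prod_append]

/-- sums over consecutive cells -/
lemma sum_cells (P : Par) (f : ℕ → ℝ) (k J : ℕ) :
    ∑ n ∈ Finset.Ico (2 ^ k) (2 ^ k + J * 2 ^ P.e k), f n =
      ∑ j ∈ Finset.range J, ∑ n ∈ P.cell k j, f n := by
  induction J with
  | zero => simp
  | succ J ih =>
    rw [Finset.sum_range_succ, ← ih, Par.cell]
    rw [Finset.sum_Ico_consecutive]
    · exact Nat.le_add_right _ _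
    · exact Nat.add_le_add_left (Nat.mul_le_mul_right _ (Nat.le_succ _)) _

lemma sum_blocks {P : Par} (hc : CellFacts P) {k0 : ℕ} (f : ℕ → ℝ)
    (h0 : ∑ n ∈ Finset.Ico 1 (2 ^ k0), f n = 0)
    (h1 : ∀ k : ℕ, k0 ≤ k → ∀ j < 2 ^ (k - P.e k), ∑ n ∈ P.cell k j, f n = 0) :
    ∀ k, k0 ≤ k → ∑ n ∈ Finset.Ico 1 (2 ^ k), f n = 0 := by
  intro k hk
  induction k, hk using Nat.le_induction with
  | base => exact h0
  | succ k hk ih =>
    rw [← Finset.sum_Ico_consecutive f (Nat.one_le_two_pow) (Nat.pow_le_pow_right (by norm_num)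
      (Nat.le_succ k)), ih, hc.sum_block, zero_add]
    apply Finset.sum_eq_zero
    intro j hj
    exact h1 k hk j (Finset.mem_range.1 hj)

/-- number of own integers of a bad cell -/
lemma card_own_bad {P : Par} (hc : CellFacts P) {k0 : ℕ} (S : P.Sel k0) {k j : ℕ} (hk : k0 ≤ k)
    (hj : j < 2 ^ (k - P.e k)) (hb : P.bad k j) (he : P.e' k ≤ P.e k) :
    ((P.cell k j).filter (fun n => ∃ x ∈ S.S, x.1 * x.2 = n)).card = 2 ^ P.e' k * P.nsel k := by
  have h1 : (P.cell k j).filter (fun n => ∃ x ∈ S.S, x.1 * x.2 = n) =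
      (Finset.range (2 ^ P.e' k)).biUnion fun i =>
        (P.part k j i).filter (fun n => ∃ x ∈ S.S, x.1 * x.2 = n) := by
    ext n
    simp only [Finset.mem_filter, Finset.mem_biUnion, Finset.mem_range]
    constructor
    · rintro ⟨h1, h2⟩
      obtain ⟨i, hi, hn⟩ := hc.exists_part he h1
      exact ⟨i, hi, hn, h2⟩
    · rintro ⟨i, hi, h1, h2⟩
      exact ⟨hc.part_subset he hi h1, h2⟩
  rw [h1, Finset.card_biUnion]
  · rw [Finset.sum_congr rfl fun i hi => S.count k hk j hj hb i (Finset.mem_range.1 hi)]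
    simp
  · intro i _ i' _ hii'
    refine Finset.disjoint_left.2 fun n hn hn' => ?_
    exact hii' (hc.part_unique (Finset.mem_filter.1 hn).1 (Finset.mem_filter.1 hn').1)

lemma sum_own_bad {P : Par} (h0 : PhiFacts P) (hc : CellFacts P) {k0 : ℕ} (S : P.Sel k0)
    {K : ℝ} (hK : ∀ x ∈ S.S, S.WW (x.1 * x.2) ≤ K * P.Wk (Nat.log 2 (x.1 * x.2)))
    {k j : ℕ} (hk : k0 ≤ k) (hj : j < 2 ^ (k - P.e k)) (hb : P.bad k j) (he : P.e' k ≤ P.e k) :
    ∑ n ∈ (P.cell k j).filter (fun n => ∃ x ∈ S.S, x.1 * x.2 = n), S.WW n ≤ K * P.Gk k := by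
  have hbound : ∀ n ∈ (P.cell k j).filter (fun n => ∃ x ∈ S.S, x.1 * x.2 = n),
      S.WW n ≤ K * P.Wk k := by
    intro n hn
    rw [Finset.mem_filter] at hn
    obtain ⟨hn1, x, hx, rfl⟩ := hn
    have := hK x hx
    rwa [((hc.mem_cell hj).1 hn1).2.1] at this
  refine (Finset.sum_le_card_nsmul _ _ _ hbound).trans ?_
  rw [card_own_bad hc S hk hj hb he, nsmul_eq_mul]
  have hns : (0:ℝ) < P.nsel k := by exact_mod_cast h0.nsel_pos k
  apply le_of_eq
  rw [Par.Wk]
  push_cast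
  have h2 : (0:ℝ) < 2 ^ P.e' k := by positivity
  field_simp

lemma rpow_two_mul (a : ℝ) (k : ℕ) : ((2:ℝ) ^ k) ^ a = (2:ℝ) ^ (a * k) := by
  rw [← Real.rpow_natCast, ← Real.rpow_mul (by norm_num), mul_comm]

lemma sum_own_good {P : Par} (h0 : PhiFacts P) (hc : CellFacts P) (hw : WFacts P) {k0 : ℕ}
    (S : P.Sel k0) {k j : ℕ} (hk : 2 ≤ k) :
    ∑ n ∈ (P.cell k j).filter (fun n => P.Ord k0 n), S.WW n ≤
      2 ^ P.e k * (2 : ℝ) ^ ((P.s - 1) * k) := by
  have hs1 : P.s - 1 ≤ 0 := by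
    have := h0.small
    have h2 : P.s = P.ν / 200 := this.2.2.2.2.2.2.1
    have h3 := this.2.1
    rw [h2]; linarith
  have hbound : ∀ n ∈ (P.cell k j).filter (fun n => P.Ord k0 n),
      S.WW n ≤ (2 : ℝ) ^ ((P.s - 1) * k) := by
    intro n hn
    rw [Finset.mem_filter] at hn
    obtain ⟨hn1, hn2⟩ := hn
    have hn3 : 2 ^ k ≤ n := by
      rw [Par.cell, Finset.mem_Ico] at hn1
      exact (Nat.le_add_right _ _).trans hn1.1
    have h4 : 4 ≤ n := by
      calc 4 = 2 ^ 2 := by norm_num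
        _ ≤ 2 ^ k := Nat.pow_le_pow_right (by norm_num) hk
        _ ≤ n := hn3
    rw [hw.WW_prime S hn2.1, Par.Sel.wt]
    have hnc : ¬ S.ctrl n := fun h => (hw.ctrl_prime S h).2.2.1 hn2
    rw [if_neg hnc, if_pos hn2]
    refine (h0.phi_le (by exact_mod_cast (by omega : 3 ≤ n))).trans ?_
    rw [← rpow_two_mul]
    apply Real.rpow_le_rpow_of_nonpos (by positivity) _ hs1
    exact_mod_cast hn3
  refine (Finset.sum_le_card_nsmul _ _ _ hbound).trans ?_
  rw [nsmul_eq_mul]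
  apply mul_le_mul_of_nonneg_right _ (by positivity)
  calc ((((P.cell k j).filter (fun n => P.Ord k0 n)).card : ℕ) : ℝ)
      ≤ (((P.cell k j).card : ℕ) : ℝ) := by exact_mod_cast Finset.card_filter_le _ _
    _ = 2 ^ P.e k := by rw [hc.card_cell]; push_cast; rfl

lemma Gk_le {P : Par} (k : ℕ) (hk : 1 ≤ k) : P.Gk k ≤ 2 ^ P.e k * (2 : ℝ) ^ ((P.s - 1) * k) := by
  rw [Par.Gk]
  have hk' : (1:ℝ) ≤ (k:ℝ) ^ 3 := by
    have : (1:ℝ) ≤ (k:ℝ) := by exact_mod_cast hk
    exact one_le_pow₀ this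
  have h1 : (0:ℝ) < 2 ^ P.e k * (2 : ℝ) ^ ((P.s - 1) * k) := by positivity
  rw [div_le_iff₀ (by linarith)]
  nlinarith

theorem partC (P : Par) (h0 : PhiFacts P) (h1 : SizeFacts P) (hc : CellFacts P) (hd : CdFacts P)
    (hw : WFacts P) (hoc : OthersCell P) (hsel : WWSel P) (hm : Majorant P) (hs : ExistsSel P)
    (hsys : System P) : PartC P := by
  obtain ⟨K1, hK1⟩ := h1
  obtain ⟨K2, hK2⟩ := hoc 1 one_pos
  obtain ⟨K, hKpos, K3, hK3⟩ := hsel
  obtain ⟨K4, hK4⟩ := hs
  obtain ⟨K5, hK5⟩ := hsys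
  refine ⟨max (max (max K1 K2) (max K3 K4)) (max K5 2), fun k0 hk0 hfb hmany => ?_⟩
  have hk1 : K1 ≤ k0 := le_trans (le_trans (le_max_left _ _) (le_max_left _ _))
    (le_trans (le_max_left _ _) hk0)
  have hk2 : K2 ≤ k0 := le_trans (le_trans (le_max_right _ _) (le_max_left _ _))
    (le_trans (le_max_left _ _) hk0)
  have hk3 : K3 ≤ k0 := le_trans (le_trans (le_max_left _ _) (le_max_right _ _))
    (le_trans (le_max_left _ _) hk0)
  have hk4 : K4 ≤ k0 := le_trans (le_trans (le_max_right _ _) (le_max_right _ _))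
    (le_trans (le_max_left _ _) hk0)
  have hk5 : K5 ≤ k0 := le_trans (le_max_left _ _) (le_trans (le_max_right _ _) hk0)
  have hk6 : 2 ≤ k0 := le_trans (le_max_right _ _) (le_trans (le_max_right _ _) hk0)
  obtain ⟨S⟩ := hK4 k0 hk4 hfb hmany
  obtain ⟨t, ht, ht0, htc⟩ := hK5 k0 hk5 hfb S
  refine ⟨S.ft t, ft_one S t, fun m n hm hn => ft_mul S t hm hn, ?_⟩
  set f := S.ft t with hf
  set α : ℝ := 1 / 2 + (P.d - P.s) with hα
  have hsm := h0.small
  have hα0 : 0 < α := by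
    have h2 : P.d = P.ν / 100 := hsm.2.2.2.2.2.1
    have h3 : P.s = P.ν / 200 := hsm.2.2.2.2.2.2.1
    have h4 := hsm.1
    rw [hα, h2, h3]; linarith
  have hWW0 : ∀ n, 0 ≤ S.WW n := fun n => hw.WW_nonneg S (by omega) n
  have hfW : ∀ n, 1 ≤ n → |f n| ≤ S.WW n := fun n hn =>
    (hm k0 (by omega) S t t ht ht 0 (fun i => by simp) n hn).1
  set M : ℝ := ∑ n ∈ Finset.Icc 1 (2 ^ k0), |f n| with hM
  have hM0 : 0 ≤ M := Finset.sum_nonneg fun n _ => abs_nonneg _
  refine ⟨(2 + K) * 2 ^ α + M * ((2:ℝ) ^ k0) ^ α, fun N hN => ?_⟩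
  have hN' : (0:ℝ) < N := by exact_mod_cast hN
  by_cases hNk : N < 2 ^ k0
  · -- small N
    have h2 : |∑ n ∈ Finset.Icc 1 N, f n| ≤ M := by
      refine (Finset.abs_sum_le_sum_abs _ _).trans ?_
      apply Finset.sum_le_sum_of_subset_of_nonneg
      · exact Finset.Icc_subset_Icc le_rfl hNk.le
      · intro n _ _; exact abs_nonneg _
    have h3 : 1 ≤ ((2:ℝ) ^ k0) ^ α * (N : ℝ) ^ (-α) := by
      rw [Real.rpow_neg hN'.le, ← div_eq_mul_inv, one_le_div (by positivity)]
      apply Real.rpow_le_rpow hN'.le _ hα0.le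
      exact_mod_cast hNk.le
    calc |∑ n ∈ Finset.Icc 1 N, f n| ≤ M * 1 := by rw [mul_one]; exact h2
      _ ≤ M * (((2:ℝ) ^ k0) ^ α * (N : ℝ) ^ (-α)) := mul_le_mul_of_nonneg_left h3 hM0
      _ = (M * ((2:ℝ) ^ k0) ^ α) * (N : ℝ) ^ (-α) := by ring
      _ ≤ _ := by
        apply mul_le_mul_of_nonneg_right _ (by positivity)
        have : 0 ≤ (2 + K) * 2 ^ α := by positivity
        linarith
  · rw [not_lt] at hNk
    set k := Nat.log 2 N with hk
    set j := P.idx N with hj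
    have hk0k : k0 ≤ k := by
      rw [hk]
      exact (Nat.le_log_iff_pow_le (by norm_num) hN.ne').2 hNk
    have hjlt : j < 2 ^ (k - P.e k) := hc.idx_lt hN.ne'
    have hNcell : N ∈ P.cell k j := (hc.mem_cell hjlt).2 ⟨hN.ne', rfl, rfl⟩
    have hNc := hNcell
    rw [Par.cell, Finset.mem_Ico] at hNc
    obtain ⟨hsz1, hsz2, -, hsz3, -⟩ := hK1 k (hk1.trans hk0k)
    -- decomposition
    have hdec : ∑ n ∈ Finset.Icc 1 N, f n =
        ∑ n ∈ Finset.Ico (2 ^ k + j * 2 ^ P.e k) (N + 1), f n := by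
      have e1 : Finset.Icc 1 N = Finset.Ico 1 (N + 1) := by
        ext n; simp
      rw [e1, ← Finset.sum_Ico_consecutive f (m := 1) (n := 2 ^ k + j * 2 ^ P.e k)
        (k := N + 1) ((Nat.one_le_two_pow).trans (Nat.le_add_right _ _))
        (hNc.1.trans (Nat.le_succ _)),
        ← Finset.sum_Ico_consecutive f (m := 1) (n := 2 ^ k) (k := 2 ^ k + j * 2 ^ P.e k)
          (Nat.one_le_two_pow) (Nat.le_add_right _ _),
        sum_blocks hc f ht0 htc k hk0k, sum_cells]
      rw [Finset.sum_eq_zero (s := Finset.range j), zero_add, zero_add]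
      intro j' hj'
      exact htc k hk0k j' ((Finset.mem_range.1 hj').trans hjlt)
    have hsub : Finset.Ico (2 ^ k + j * 2 ^ P.e k) (N + 1) ⊆ P.cell k j := by
      intro n hn
      rw [Finset.mem_Ico] at hn
      rw [Par.cell, Finset.mem_Ico]
      exact ⟨hn.1, lt_of_le_of_lt (Nat.lt_succ_iff.1 hn.2) hNc.2⟩
    have hb1 : |∑ n ∈ Finset.Icc 1 N, f n| ≤ ∑ n ∈ P.cell k j, S.WW n := by
      rw [hdec]
      refine (Finset.abs_sum_le_sum_abs _ _).trans ?_
      calc _ ≤ ∑ n ∈ P.cell k j, |f n| :=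
            Finset.sum_le_sum_of_subset_of_nonneg hsub fun n _ _ => abs_nonneg _
        _ ≤ _ := by
            apply Finset.sum_le_sum
            intro n hn
            apply hfW
            rw [Par.cell, Finset.mem_Ico] at hn
            exact (Nat.one_le_two_pow).trans ((Nat.le_add_right _ _).trans hn.1)
    set X : ℝ := 2 ^ P.e k * (2 : ℝ) ^ ((P.s - 1) * k) with hX
    have hX0 : 0 < X := by positivity
    have hkpos : 1 ≤ k := by omega
    have hG := Gk_le (P := P) k hkpos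
    have hown : ∑ n ∈ S.own k j, S.WW n ≤ (1 + K) * X := by
      by_cases hb : P.bad k j
      · have e1 : S.own k j = (P.cell k j).filter (fun n => ∃ x ∈ S.S, x.1 * x.2 = n) := by
          unfold Par.Sel.own
          apply Finset.filter_congr
          intro n _
          simp [hb]
        rw [e1]
        refine (sum_own_bad h0 hc S (hK3 k0 hk3 hfb S) hk0k hjlt hb (by omega)).trans ?_
        calc K * P.Gk k ≤ K * X := mul_le_mul_of_nonneg_left hG hKpos.le
          _ ≤ (1 + K) * X := by nlinarith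
      · have e1 : S.own k j = (P.cell k j).filter (fun n => P.Ord k0 n) := by
          unfold Par.Sel.own
          apply Finset.filter_congr
          intro n _
          simp [hb]
        rw [e1]
        refine (sum_own_good h0 hc hw S (by omega)).trans ?_
        nlinarith
    have hoth : ∑ n ∈ (P.cell k j).filter (fun n => n ∉ S.own k j), S.WW n ≤ X := by
      refine (hK2 k0 hk2 hfb S k hk0k j hjlt).trans ?_
      rw [one_mul]; exact hG
    have htot : ∑ n ∈ P.cell k j, S.WW n ≤ (2 + K) * X := by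
      rw [← Finset.sum_filter_add_sum_filter_not (P.cell k j) (fun n => n ∈ S.own k j)]
      have e2 : (P.cell k j).filter (fun n => n ∈ S.own k j) = S.own k j := by
        ext n
        simp only [Finset.mem_filter]
        constructor
        · exact fun h => h.2
        · intro h
          exact ⟨(Finset.mem_filter.1 h).1, h⟩
      rw [e2]
      linarith
    have hXle : X ≤ 2 ^ α * (N : ℝ) ^ (-α) := by
      have e3 : X ≤ (2:ℝ) ^ (-α * k) := by
        calc X ≤ (2:ℝ) ^ ((1/2 - P.d) * k) * (2 : ℝ) ^ ((P.s - 1) * k) :=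
              mul_le_mul_of_nonneg_right (by exact_mod_cast hsz3) (by positivity)
          _ = (2:ℝ) ^ (-α * k) := by
              rw [← Real.rpow_add (by norm_num)]
              congr 1
              rw [hα]; ring
      refine e3.trans ?_
      have hN2 : (N:ℝ) ≤ (2:ℝ) ^ (k + 1) := by
        exact_mod_cast (Nat.lt_pow_succ_log_self (by norm_num) N).le
      have e4 : ((2:ℝ) ^ (k + 1)) ^ (-α) ≤ (N:ℝ) ^ (-α) :=
        Real.rpow_le_rpow_of_nonpos hN' hN2 (by linarith)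
      calc (2:ℝ) ^ (-α * k) = 2 ^ α * ((2:ℝ) ^ (k + 1)) ^ (-α) := by
            rw [rpow_two_mul, ← Real.rpow_add (by norm_num)]
            congr 1
            push_cast
            ring
        _ ≤ _ := mul_le_mul_of_nonneg_left e4 (by positivity)
    calc |∑ n ∈ Finset.Icc 1 N, f n| ≤ (2 + K) * X := hb1.trans htot
      _ ≤ (2 + K) * (2 ^ α * (N : ℝ) ^ (-α)) := mul_le_mul_of_nonneg_left hXle (by positivity)
      _ = ((2 + K) * 2 ^ α) * (N : ℝ) ^ (-α) := by ring
      _ ≤ _ := by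
        apply mul_le_mul_of_nonneg_right _ (by positivity)
        have : 0 ≤ M * ((2:ℝ) ^ k0) ^ α := by positivity
        linarith

end Pool.Agent.Helper15.QRH
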