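import Pool.Agent.Helper15.QRH.PartC

/-! QRH-C14: solving the system of cell equations. -/

set_option autoImplicit false
open Filter Topology
open scoped Classical

namespace Pool.Agent.Helper15.QRH

open Pool.Agent.Helper10.QRH

/-- the sum over the cell `I` with parameter index `i` has the form `t i * B t + R t`. -/
def CellOK {P : Par} {k0 : ℕ} (S : P.Sel k0) (ε K : ℝ) (i : ℕ × ℕ) (I : Finset ℕ) : Prop :=
  ∃ (B R : (ℕ × ℕ → ℝ) → ℝ) (G : ℝ), 0 < G ∧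
    (∀ t : ℕ × ℕ → ℝ, (∀ i, |t i| ≤ 1) → G ≤ B t) ∧
    (∀ t : ℕ × ℕ → ℝ, (∀ i, |t i| ≤ 1) → |R t| ≤ ε * G) ∧
    (∀ t t' : ℕ × ℕ → ℝ, (∀ i, |t i| ≤ 1) → (∀ i, |t' i| ≤ 1) → ∀ D : ℝ,
      (∀ i, |t i - t' i| ≤ D) → |B t - B t'| ≤ K * G * D) ∧
    (∀ t t' : ℕ × ℕ → ℝ, (∀ i, |t i| ≤ 1) → (∀ i, |t' i| ≤ 1) → ∀ D : ℝ,
      (∀ i, |t i - t' i| ≤ D) → |R t - R t'| ≤ ε * G * D) ∧
    ∀ t : ℕ × ℕ → ℝ, (∀ i, |t i| ≤ 1) → ∑ n ∈ I, S.ft t n = t i * B t + R t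

lemma cellOK_of {P : Par} (hm : Majorant P) {k0 : ℕ} (hk0 : 1 ≤ k0) (S : P.Sel k0) {ε K : ℝ}
    (hε : 0 ≤ ε) (i : ℕ × ℕ) (I O : Finset ℕ) (hO : O ⊆ I)
    (hI : ∀ n ∈ I, 1 ≤ n) (β : (ℕ × ℕ → ℝ) → ℕ → ℝ) (ρ b : ℕ → ℝ) (G : ℝ) (hG : 0 < G)
    (hft : ∀ t : ℕ × ℕ → ℝ, (∀ i, |t i| ≤ 1) → ∀ n ∈ O, S.ft t n = t i * β t n + ρ n)
    (hB : ∀ t : ℕ × ℕ → ℝ, (∀ i, |t i| ≤ 1) → G ≤ ∑ n ∈ O, β t n)
    (hρ : |∑ n ∈ O, ρ n| ≤ ε / 2 * G)
    (hW : ∑ n ∈ I \ O, S.WW n ≤ ε / 2 * G)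
    (hb : ∀ t t' : ℕ × ℕ → ℝ, (∀ i, |t i| ≤ 1) → (∀ i, |t' i| ≤ 1) → ∀ D : ℝ,
      (∀ i, |t i - t' i| ≤ D) → ∀ n ∈ O, |β t n - β t' n| ≤ b n * D)
    (hbs : ∑ n ∈ O, b n ≤ K * G) : CellOK S ε K i I := by
  have hI' : ∀ n ∈ I \ O, 1 ≤ n := fun n hn => hI n (Finset.mem_sdiff.1 hn).1
  refine ⟨fun t => ∑ n ∈ O, β t n, fun t => ∑ n ∈ O, ρ n + ∑ n ∈ I \ O, S.ft t n, G, hG, hB,
    ?_, ?_, ?_, ?_⟩
  · intro t ht
    refine (abs_add_le _ _).trans ?_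
    have h1 : |∑ n ∈ I \ O, S.ft t n| ≤ ∑ n ∈ I \ O, S.WW n := by
      refine (Finset.abs_sum_le_sum_abs _ _).trans (Finset.sum_le_sum fun n hn => ?_)
      exact (hm k0 hk0 S t t ht ht 0 (fun i => by simp) n (hI' n hn)).1
    linarith
  · intro t t' ht ht' D hD
    have hD0 : 0 ≤ D := (abs_nonneg _).trans (hD (0, 0))
    rw [← Finset.sum_sub_distrib]
    calc |∑ n ∈ O, (β t n - β t' n)| ≤ ∑ n ∈ O, b n * D := by
          refine (Finset.abs_sum_le_sum_abs _ _).trans (Finset.sum_le_sum fun n hn => ?_)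
          exact hb t t' ht ht' D hD n hn
      _ = (∑ n ∈ O, b n) * D := by rw [Finset.sum_mul]
      _ ≤ K * G * D := mul_le_mul_of_nonneg_right hbs hD0
  · intro t t' ht ht' D hD
    have hD0 : 0 ≤ D := (abs_nonneg _).trans (hD (0, 0))
    have e : (∑ n ∈ O, ρ n + ∑ n ∈ I \ O, S.ft t n) - (∑ n ∈ O, ρ n + ∑ n ∈ I \ O, S.ft t' n)
        = ∑ n ∈ I \ O, (S.ft t n - S.ft t' n) := by
      rw [Finset.sum_sub_distrib]; ring
    rw [e]
    calc |∑ n ∈ I \ O, (S.ft t n - S.ft t' n)| ≤ ∑ n ∈ I \ O, S.WW n * D := by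
          refine (Finset.abs_sum_le_sum_abs _ _).trans (Finset.sum_le_sum fun n hn => ?_)
          exact (hm k0 hk0 S t t' ht ht' D hD n (hI' n hn)).2
      _ = (∑ n ∈ I \ O, S.WW n) * D := by rw [Finset.sum_mul]
      _ ≤ (ε / 2 * G) * D := mul_le_mul_of_nonneg_right hW hD0
      _ ≤ ε * G * D := by
          have : 0 ≤ ε * G * D := by positivity
          linarith
  · intro t ht
    rw [← Finset.sum_sdiff hO, Finset.sum_congr rfl (fun n hn => hft t ht n hn),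
      Finset.sum_add_distrib, ← Finset.mul_sum]
    ring

/-- values at ordinary primes -/
lemma ft_ord {P : Par} (hw : WFacts P) {k0 : ℕ} (S : P.Sel k0) (t : ℕ × ℕ → ℝ) {p : ℕ}
    (hp : P.Ord k0 p) : S.ft t p =
      (P.sg k0 p + (if 2 ^ (k0 - 1) ≤ p then t (P.cix k0 p) / 4 else 0))
        * P.v (Nat.log 2 p) / 4 := by
  have hnc : ¬ S.ctrl p := fun h => (hw.ctrl_prime S h).2.2.1 hp
  rw [Par.Sel.ft, Nat.primeFactorsList_prime hp.1]
  simp only [List.map_cons, List.map_nil, List.prod_cons, List.prod_nil, mul_one]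
  rw [Par.Sel.fp, if_neg hnc, if_pos hp]

lemma cix_cell {P : Par} (hc : CellFacts P) {k0 k j n : ℕ} (hk : k0 ≤ k)
    (hj : j < 2 ^ (k - P.e k)) (hn : n ∈ P.cell k j) : P.cix k0 n = (k, j) := by
  have h1 := (hc.mem_cell hj).1 hn
  have h2 : 2 ^ k ≤ n := by
    rw [Par.cell, Finset.mem_Ico] at hn
    exact (Nat.le_add_right _ _).trans hn.1
  have h3 : ¬ n < 2 ^ k0 := by
    rw [not_lt]
    exact (Nat.pow_le_pow_right (by norm_num) hk).trans h2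
  rw [Par.cix, if_neg h3, h1.2.1, h1.2.2]

lemma cell_pos {P : Par} {k j n : ℕ} (hn : n ∈ P.cell k j) : 1 ≤ n := by
  rw [Par.cell, Finset.mem_Ico] at hn
  exact (Nat.one_le_two_pow).trans ((Nat.le_add_right _ _).trans hn.1)

lemma cellOK_bad {P : Par} (h0 : PhiFacts P) (hc : CellFacts P) (hm : Majorant P) {k0 : ℕ}
    (hk0 : 1 ≤ k0) (S : P.Sel k0) {ε K : ℝ} (hε : 0 < ε)
    (hK : ∀ x ∈ S.S, ∀ t : ℕ × ℕ → ℝ, (∀ i, |t i| ≤ 1) →
      S.ft t (x.1 * x.2) = t (P.cix k0 (x.1 * x.2)) * (S.w x.1 * |S.ft t x.2|) ∧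
      P.Wk (Nat.log 2 (x.1 * x.2)) ≤ S.w x.1 * |S.ft t x.2| ∧
      ∀ t' : ℕ × ℕ → ℝ, (∀ i, |t' i| ≤ 1) → ∀ D : ℝ, (∀ i, |t i - t' i| ≤ D) →
        |(S.w x.1 * |S.ft t x.2|) - (S.w x.1 * |S.ft t' x.2|)| ≤ K * P.Wk (Nat.log 2 (x.1 * x.2)) * D)
    {k j : ℕ} (hk : k0 ≤ k) (hj : j < 2 ^ (k - P.e k)) (hb : P.bad k j) (he : P.e' k ≤ P.e k)
    (hoth : ∑ n ∈ (P.cell k j).filter (fun n => n ∉ S.own k j), S.WW n ≤ ε / 2 * P.Gk k) :
    CellOK S ε K (k, j) (P.cell k j) := by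
  set O : Finset ℕ := (P.cell k j).filter (fun n => ∃ x ∈ S.S, x.1 * x.2 = n) with hO
  have hown : S.own k j = O := by
    unfold Par.Sel.own
    apply Finset.filter_congr
    intro n _
    simp [hb]
  have hch : ∀ n : ℕ, ∃ x : ℕ × ℕ, n ∈ O → x ∈ S.S ∧ x.1 * x.2 = n := by
    intro n
    by_cases hn : n ∈ O
    · obtain ⟨x, hx, hxn⟩ := (Finset.mem_filter.1 hn).2
      exact ⟨x, fun _ => ⟨hx, hxn⟩⟩
    · exact ⟨(0, 0), fun h => absurd h hn⟩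
  choose x hx using hch
  have hlog : ∀ n ∈ O, Nat.log 2 ((x n).1 * (x n).2) = k := by
    intro n hn
    rw [(hx n hn).2]
    exact ((hc.mem_cell hj).1 (Finset.mem_filter.1 hn).1).2.1
  have hcix : ∀ n ∈ O, P.cix k0 ((x n).1 * (x n).2) = (k, j) := by
    intro n hn
    rw [(hx n hn).2]
    exact cix_cell hc hk hj (Finset.mem_filter.1 hn).1
  have hns : (0:ℝ) < P.nsel k := by exact_mod_cast h0.nsel_pos k
  have hcard : ((O.card : ℕ) : ℝ) * P.Wk k = P.Gk k := by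
    rw [hO, card_own_bad hc S hk hj hb he, Par.Wk]
    push_cast
    have h2 : (0:ℝ) < 2 ^ P.e' k := by positivity
    field_simp
  refine cellOK_of hm hk0 S hε.le (k, j) (P.cell k j) O (Finset.filter_subset _ _)
    (fun n hn => cell_pos hn) (fun t n => S.w (x n).1 * |S.ft t (x n).2|) (fun _ => 0)
    (fun _ => K * P.Wk k) (P.Gk k) (h0.Gk_pos (hk0.trans hk)) ?_ ?_ ?_ ?_ ?_ ?_
  · intro t ht n hn
    have h1 := (hK _ (hx n hn).1 t ht).1
    rw [hcix n hn, (hx n hn).2] at h1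
    rw [h1, add_zero]
  · intro t ht
    calc P.Gk k = ∑ n ∈ O, P.Wk k := by rw [Finset.sum_const, nsmul_eq_mul, hcard]
      _ ≤ _ := by
        apply Finset.sum_le_sum
        intro n hn
        have h1 := (hK _ (hx n hn).1 t ht).2.1
        rwa [hlog n hn] at h1
  · simp only [Finset.sum_const_zero, abs_zero]
    have := h0.Gk_pos (hk0.trans hk)
    positivity
  · have e : P.cell k j \ O = (P.cell k j).filter (fun n => n ∉ S.own k j) := by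
      rw [hown]
      ext n
      simp only [Finset.mem_sdiff, Finset.mem_filter]
    rw [e]
    exact hoth
  · intro t t' ht ht' D hD n hn
    have h1 := (hK _ (hx n hn).1 t ht).2.2 t' ht' D hD
    rwa [hlog n hn] at h1
  · rw [Finset.sum_const, nsmul_eq_mul, mul_left_comm, hcard]

lemma cellOK_good {P : Par} (h0 : PhiFacts P) (hc : CellFacts P) (hw : WFacts P)
    (hsg : SgSum P) (hm : Majorant P) {k0 : ℕ}
    (hk0 : 1 ≤ k0) (S : P.Sel k0) {ε K : ℝ} (hε : 0 < ε) (hK : 0 ≤ K)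
    {k j : ℕ} (hk : k0 ≤ k) (hj : j < 2 ^ (k - P.e k)) (hb : ¬ P.bad k j)
    (hnum : P.Gk k ≤ (((P.cell k j).filter (P.Ord k0)).card : ℝ) * (P.v k / 16))
    (hv : P.v k / 4 ≤ ε / 2 * P.Gk k)
    (hoth : ∑ n ∈ (P.cell k j).filter (fun n => n ∉ S.own k j), S.WW n ≤ ε / 2 * P.Gk k) :
    CellOK S ε K (k, j) (P.cell k j) := by
  set O : Finset ℕ := (P.cell k j).filter (P.Ord k0) with hO
  have hown : S.own k j = O := by
    unfold Par.Sel.own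
    apply Finset.filter_congr
    intro n _
    simp [hb]
  have hGk : 0 < P.Gk k := h0.Gk_pos (hk0.trans hk)
  refine cellOK_of hm hk0 S hε.le (k, j) (P.cell k j) O (Finset.filter_subset _ _)
    (fun n hn => cell_pos hn) (fun t n => P.v k / 16) (fun n => P.sg k0 n * (P.v k / 4))
    (fun _ => 0) (P.Gk k) hGk ?_ ?_ ?_ ?_ ?_ ?_
  · intro t ht n hn
    rw [hO, Finset.mem_filter] at hn
    have h1 := (hc.mem_cell hj).1 hn.1
    have h2 : 2 ^ (k0 - 1) ≤ n := by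
      have h3 : 2 ^ k ≤ n := by
        have := hn.1
        rw [Par.cell, Finset.mem_Ico] at this
        exact (Nat.le_add_right _ _).trans this.1
      exact (Nat.pow_le_pow_right (by norm_num) (by omega)).trans h3
    rw [ft_ord hw S t hn.2, if_pos h2, cix_cell hc hk hj hn.1, h1.2.1]
    ring
  · intro t ht
    rw [Finset.sum_const, nsmul_eq_mul]
    exact hnum
  · rw [← Finset.sum_mul, abs_mul]
    have hv0 : 0 < P.v k := h0.v_pos k
    have h1 : |∑ n ∈ O, P.sg k0 n| ≤ 1 := by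
      rw [hO, Par.cell]
      exact hsg k0 _ _
    rw [abs_of_pos (by positivity : 0 < P.v k / 4)]
    nlinarith
  · have e : P.cell k j \ O = (P.cell k j).filter (fun n => n ∉ S.own k j) := by
      rw [hown]
      ext n
      simp only [Finset.mem_sdiff, Finset.mem_filter]
    rw [e]
    exact hoth
  · intro t t' ht ht' D hD n hn
    simp
  · simp only [Finset.sum_const_zero]
    positivity

/-! ### numerical facts -/

lemma s_facts {P : Par} (h0 : PhiFacts P) : 0 < P.s ∧ P.s ≤ 1 / 4 := by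
  have hs := h0.small
  have h2 : P.s = P.ν / 200 := hs.2.2.2.2.2.2.1
  constructor
  · rw [h2]; linarith [hs.1]
  · rw [h2]; linarith [hs.2.1]

lemma log_two_pow (k : ℕ) : Real.log ((2:ℝ) ^ k) = k * Real.log 2 := by rw [Real.log_pow]

lemma log_two_lt' : Real.log 2 < 0.7 := by
  have := Real.log_two_lt_d9
  linarith

/-- lower bound for the weight in terms of the block -/
lemma phi_pow_ge {P : Par} (k : ℕ) (hk : 1 ≤ k) :
    ((2:ℝ) ^ k) ^ (P.s - 1) / (0.49 * (k:ℝ) ^ 2) ≤ P.phi ((2:ℝ) ^ k) := by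
  have hk' : (1:ℝ) ≤ (k:ℝ) := by exact_mod_cast hk
  have hl0 : 0 < Real.log 2 := Real.log_pos (by norm_num)
  have hl1 := log_two_lt'
  rw [Par.phi, log_two_pow]
  apply div_le_div_of_nonneg_left (by positivity) (by positivity)
  rw [mul_pow]
  have : Real.log 2 ^ 2 ≤ 0.49 := by nlinarith
  nlinarith [sq_nonneg (k:ℝ)]

lemma num_good {P : Par} (h0 : PhiFacts P) {k : ℕ} (hk : 3 ≤ k) {c : ℝ}
    (hc : (2 : ℝ) ^ P.e k / (60 * k) ≤ c) : P.Gk k ≤ c * (P.v k / 16) := by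
  obtain ⟨hs0, hs1⟩ := s_facts h0
  have hk' : (3:ℝ) ≤ (k:ℝ) := by exact_mod_cast hk
  have hv0 : 0 < P.v k := h0.v_pos k
  set X : ℝ := (2:ℝ) ^ ((P.s - 1) * k) with hX
  have hX0 : 0 < X := by positivity
  have hv : X / 2 / (0.49 * ((k:ℝ) + 1) ^ 2) ≤ P.v k := by
    have h1 := phi_pow_ge (P := P) (k + 1) (by omega)
    push_cast at h1
    refine le_trans ?_ h1
    apply div_le_div_of_nonneg_right _ (by positivity)
    rw [rpow_two_mul]
    push_cast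
    have h2 : (P.s - 1) * ((k:ℝ) + 1) = (P.s - 1) * k + (P.s - 1) := by ring
    rw [h2, Real.rpow_add (by norm_num)]
    have h3 : (1:ℝ) / 2 ≤ 2 ^ (P.s - 1) := by
      calc (1:ℝ) / 2 = 2 ^ (-1 : ℝ) := by
            rw [Real.rpow_neg_one]; norm_num
        _ ≤ 2 ^ (P.s - 1) := Real.rpow_le_rpow_of_exponent_le (by norm_num) (by linarith)
    rw [← hX]
    nlinarith
  have hv2 : 0.48 * X / (k:ℝ) ^ 2 ≤ P.v k := by
    refine le_trans ?_ hv
    rw [div_le_div_iff₀ (by positivity) (by positivity)]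
    have h4 : 0.48 * (0.49 * ((k:ℝ) + 1) ^ 2) ≤ 1 / 2 * (k:ℝ) ^ 2 := by nlinarith
    have h5 := mul_le_mul_of_nonneg_left h4 hX0.le
    nlinarith
  have hE : (0:ℝ) < 2 ^ P.e k := by positivity
  calc P.Gk k = (2 : ℝ) ^ P.e k / (60 * k) * ((0.48 * X / (k:ℝ) ^ 2) / 16) := by
        rw [Par.Gk, ← hX]
        field_simp
        ring
    _ ≤ c * (P.v k / 16) := by
        apply mul_le_mul hc _ (by positivity) (le_trans (by positivity) hc)
        linarith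

lemma v_le {P : Par} (h0 : PhiFacts P) {k : ℕ} (hk : 1 ≤ k) :
    P.v k ≤ (2:ℝ) ^ ((P.s - 1) * k) := by
  obtain ⟨hs0, hs1⟩ := s_facts h0
  have h3 : (3:ℝ) ≤ 2 ^ (k + 1) := by
    have : (2:ℝ) ^ 2 ≤ 2 ^ (k + 1) := pow_le_pow_right₀ (by norm_num) (by omega)
    linarith
  have h1 : P.v k ≤ ((2:ℝ) ^ (k + 1)) ^ (P.s - 1) := h0.phi_le h3
  refine h1.trans ?_
  rw [← rpow_two_mul]
  apply Real.rpow_le_rpow_of_nonpos (by positivity) _ (by linarith)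
  exact pow_le_pow_right₀ (by norm_num) (Nat.le_succ k)

lemma cube_le_pow {r c : ℝ} (hr : 1 < r) (hc : 0 < c) :
    ∃ K0 : ℕ, ∀ k : ℕ, K0 ≤ k → (k:ℝ) ^ 3 ≤ c * r ^ k := by
  have h := tendsto_pow_const_div_const_pow_of_one_lt 3 hr
  obtain ⟨K0, hK0⟩ := eventually_atTop.1 (h.eventually_lt_const hc)
  refine ⟨K0, fun k hk => ?_⟩
  have h1 := hK0 k hk
  have h2 : 0 < r ^ k := by positivity
  rw [div_lt_iff₀ h2] at h1
  exact h1.le

lemma num_v {P : Par} (h0 : PhiFacts P) (h1 : SizeFacts P) {ε : ℝ} (hε : 0 < ε) :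
    ∃ K0 : ℕ, ∀ k : ℕ, K0 ≤ k → P.v k / 4 ≤ ε / 2 * P.Gk k := by
  obtain ⟨K1, hK1⟩ := h1
  obtain ⟨K2, hK2⟩ := cube_le_pow (r := (2:ℝ) ^ (0.4:ℝ)) (c := ε / 1000)
    (Real.one_lt_rpow (by norm_num) (by norm_num)) (by positivity)
  refine ⟨max (max K1 K2) 1, fun k hk => ?_⟩
  have hk1 : K1 ≤ k := (le_max_left _ _).trans ((le_max_left _ _).trans hk)
  have hk2 : K2 ≤ k := (le_max_right _ _).trans ((le_max_left _ _).trans hk)
  have hk3 : 1 ≤ k := (le_max_right _ _).trans hk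
  have hk3' : (1:ℝ) ≤ (k:ℝ) := by exact_mod_cast hk3
  obtain ⟨-, -, hsz, -⟩ := hK1 k hk1
  have h2 := hK2 k hk2
  have hsm := h0.small
  have h3 : ((2:ℝ) ^ (0.4:ℝ)) ^ k ≤ 2 ^ P.e k := by
    refine le_trans ?_ hsz
    rw [← Real.rpow_natCast, ← Real.rpow_mul (by norm_num)]
    apply Real.rpow_le_rpow_of_exponent_le (by norm_num)
    apply mul_le_mul_of_nonneg_right _ (by positivity)
    linarith [hsm.2.1]
  have h4 : (k:ℝ) ^ 3 ≤ ε / 1000 * 2 ^ P.e k :=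
    h2.trans (mul_le_mul_of_nonneg_left h3 (by positivity))
  have hv := v_le h0 hk3
  set X : ℝ := (2:ℝ) ^ ((P.s - 1) * k) with hX
  have hX0 : 0 < X := by positivity
  have hk30 : (0:ℝ) < (k:ℝ) ^ 3 := by positivity
  calc P.v k / 4 ≤ X / 4 := by linarith
    _ ≤ ε / 2 * P.Gk k := by
        rw [Par.Gk, ← hX, ← mul_div_assoc, le_div_iff₀ hk30]
        have := mul_le_mul_of_nonneg_left h4 hX0.le
        nlinarith

/-- signed sum over the ordinary primes below `2^m` -/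
lemma sum_sg_blocks {P : Par} (h0 : PhiFacts P) (hsg : SgSum P) (k0 m : ℕ) :
    |∑ n ∈ (Finset.Ico 1 (2 ^ m)).filter (P.Ord k0), P.sg k0 n * P.v (Nat.log 2 n) / 4| ≤
      ∑ k ∈ Finset.range m, P.v k / 4 := by
  induction m with
  | zero => simp
  | succ m ih =>
    have e1 : (Finset.Ico 1 (2 ^ (m + 1))).filter (P.Ord k0) =
        (Finset.Ico 1 (2 ^ m)).filter (P.Ord k0) ∪
          (Finset.Ico (2 ^ m) (2 ^ (m + 1))).filter (P.Ord k0) := by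
      rw [← Finset.filter_union, Finset.Ico_union_Ico_eq_Ico (Nat.one_le_two_pow)
        (Nat.pow_le_pow_right (by norm_num) (Nat.le_succ m))]
    have hdis : Disjoint ((Finset.Ico 1 (2 ^ m)).filter (P.Ord k0))
        ((Finset.Ico (2 ^ m) (2 ^ (m + 1))).filter (P.Ord k0)) := by
      apply Finset.disjoint_filter_filter
      exact Finset.Ico_disjoint_Ico_consecutive _ _ _
    rw [e1, Finset.sum_union hdis, Finset.sum_range_succ]
    refine (abs_add_le _ _).trans (add_le_add ih ?_)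
    have e2 : ∑ n ∈ (Finset.Ico (2 ^ m) (2 ^ (m + 1))).filter (P.Ord k0),
        P.sg k0 n * P.v (Nat.log 2 n) / 4 =
        (∑ n ∈ (Finset.Ico (2 ^ m) (2 ^ (m + 1))).filter (P.Ord k0), P.sg k0 n) * (P.v m / 4) := by
      rw [Finset.sum_mul]
      apply Finset.sum_congr rfl
      intro n hn
      rw [Finset.mem_filter, Finset.mem_Ico] at hn
      have : Nat.log 2 n = m := Nat.log_eq_of_pow_le_of_lt_pow hn.1.1 hn.1.2
      rw [this]; ring
    rw [e2, abs_mul]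
    have hv0 : 0 < P.v m := h0.v_pos m
    have h1 := hsg k0 (2 ^ m) (2 ^ (m + 1))
    rw [abs_of_pos (by positivity : 0 < P.v m / 4)]
    nlinarith

lemma sum_v_le {P : Par} (h0 : PhiFacts P) (m : ℕ) :
    ∑ k ∈ Finset.range m, P.v k / 4 ≤ (P.v 0 + 4) / 4 := by
  obtain ⟨hs0, hs1⟩ := s_facts h0
  set r : ℝ := (2:ℝ) ^ (P.s - 1) with hr
  have hr0 : 0 < r := by positivity
  have hr1 : r ≤ 3 / 4 := by
    have h1 : r ≤ (2:ℝ) ^ (-(1/2) : ℝ) :=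
      Real.rpow_le_rpow_of_exponent_le (by norm_num) (by linarith)
    have h2 : ((2:ℝ) ^ (-(1/2) : ℝ)) ^ 2 = 1 / 2 := by
      rw [← Real.rpow_natCast, ← Real.rpow_mul (by norm_num)]
      norm_num
    have h3 : 0 < (2:ℝ) ^ (-(1/2) : ℝ) := by positivity
    nlinarith
  have hle : ∀ k, P.v k ≤ (if k = 0 then P.v 0 else 0) + r ^ k := by
    intro k
    by_cases hk : k = 0
    · subst hk; simp
    · rw [if_neg hk, zero_add]
      refine (v_le h0 (Nat.one_le_iff_ne_zero.2 hk)).trans ?_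
      rw [hr, ← Real.rpow_natCast, ← Real.rpow_mul (by norm_num)]
  have hgeo : ∑ k ∈ Finset.range m, r ^ k ≤ 4 := by
    have h1 : ∑ k ∈ Finset.range m, r ^ k ≤ ∑ k ∈ Finset.range m, (3/4 : ℝ) ^ k :=
      Finset.sum_le_sum fun k _ => pow_le_pow_left₀ hr0.le hr1 k
    have h2 : ∑ k ∈ Finset.range m, (3/4 : ℝ) ^ k ≤ 4 := by
      have h3 := geom_sum_eq (by norm_num : (3/4 : ℝ) ≠ 1) m
      rw [h3]
      have h4 : (0:ℝ) < (3/4 : ℝ) ^ m := by positivity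
      rw [div_le_iff_of_neg (by norm_num)]
      linarith
    linarith
  have hv0 : 0 < P.v 0 := h0.v_pos 0
  have hif : ∑ k ∈ Finset.range m, (if k = 0 then P.v 0 else 0) ≤ P.v 0 := by
    rw [Finset.sum_ite_eq' (Finset.range m) 0 (fun _ => P.v 0)]
    split_ifs
    · exact le_rfl
    · exact hv0.le
  rw [← Finset.sum_div]
  apply div_le_div_of_nonneg_right _ (by norm_num)
  calc ∑ k ∈ Finset.range m, P.v k ≤ ∑ k ∈ Finset.range m, ((if k = 0 then P.v 0 else 0) + r ^ k) :=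
        Finset.sum_le_sum fun k _ => hle k
    _ ≤ _ := by
        rw [Finset.sum_add_distrib]
        exact add_le_add hif hgeo

lemma num_init {P : Par} (h0 : PhiFacts P) {k0 : ℕ} (hk : 1 ≤ k0) {c : ℝ}
    (hc : (2 : ℝ) ^ k0 / (4 * k0) ≤ c) :
    (2:ℝ) ^ (P.s * k0) / (2000 * (k0:ℝ) ^ 3) ≤ c * (P.v (k0 - 1) / 16) := by
  have hk' : (1:ℝ) ≤ (k0:ℝ) := by exact_mod_cast hk
  have h1 := phi_pow_ge (P := P) k0 hk
  have hv : P.v (k0 - 1) = P.phi ((2:ℝ) ^ k0) := by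
    rw [Par.v, Nat.sub_add_cancel hk]
  rw [← hv, rpow_two_mul] at h1
  have hX : (2:ℝ) ^ (P.s * k0) = 2 ^ k0 * (2:ℝ) ^ ((P.s - 1) * k0) := by
    rw [← Real.rpow_natCast, ← Real.rpow_add (by norm_num)]
    congr 1; ring
  set X : ℝ := (2:ℝ) ^ ((P.s - 1) * k0) with hXdef
  have hX0 : 0 < X := by positivity
  calc (2:ℝ) ^ (P.s * k0) / (2000 * (k0:ℝ) ^ 3)
      ≤ (2 : ℝ) ^ k0 / (4 * k0) * (X / (0.49 * (k0:ℝ) ^ 2) / 16) := by
        rw [hX]
        have e : (2 : ℝ) ^ k0 / (4 * k0) * (X / (0.49 * (k0:ℝ) ^ 2) / 16)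
            = (2 ^ k0 * X) / (31.36 * (k0:ℝ) ^ 3) := by
          field_simp
          ring
        rw [e]
        apply div_le_div_of_nonneg_left (by positivity) (by positivity)
        have : (0:ℝ) < (k0:ℝ) ^ 3 := by positivity
        nlinarith
    _ ≤ c * (P.v (k0 - 1) / 16) := by
        apply mul_le_mul hc _ (by positivity) (le_trans (by positivity) hc)
        linarith

lemma num_G0 {P : Par} (h0 : PhiFacts P) {ε : ℝ} (hε : 0 < ε) :
    ∃ K0 : ℕ, ∀ k0 : ℕ, K0 ≤ k0 →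
      (P.v 0 + 4) / 4 ≤ ε / 2 * ((2:ℝ) ^ (P.s * k0) / (2000 * (k0:ℝ) ^ 3)) := by
  obtain ⟨hs0, hs1⟩ := s_facts h0
  have hv0 : 0 < P.v 0 := h0.v_pos 0
  obtain ⟨K2, hK2⟩ := cube_le_pow (r := (2:ℝ) ^ P.s) (c := ε / (1000 * (P.v 0 + 4)))
    (Real.one_lt_rpow (by norm_num) hs0) (by positivity)
  refine ⟨max K2 1, fun k0 hk => ?_⟩
  have hk1 : K2 ≤ k0 := (le_max_left _ _).trans hk
  have hk2 : (1:ℝ) ≤ (k0:ℝ) := by exact_mod_cast (le_max_right _ _).trans hk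
  have h1 := hK2 k0 hk1
  have h2 : ((2:ℝ) ^ P.s) ^ k0 = (2:ℝ) ^ (P.s * k0) := by
    rw [← Real.rpow_natCast, ← Real.rpow_mul (by norm_num)]
  rw [h2] at h1
  have h3 : (0:ℝ) < (k0:ℝ) ^ 3 := by positivity
  rw [← mul_div_assoc, le_div_iff₀ (by positivity)]
  rw [div_mul_eq_mul_div, le_div_iff₀ (by positivity)] at h1
  nlinarith

lemma cellOK_init {P : Par} (h0 : PhiFacts P) (hw : WFacts P)
    (hsg : SgSum P) (hm : Majorant P) {k0 : ℕ}
    (hk0 : 1 ≤ k0) (S : P.Sel k0) {ε K : ℝ} (hε : 0 < ε) (hK : 0 ≤ K)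
    (hcnt : (2 : ℝ) ^ k0 / (4 * k0) ≤
      (((Finset.Ico (2 ^ (k0 - 1)) (2 ^ k0)).filter (P.Ord k0)).card : ℝ))
    (hv : (P.v 0 + 4) / 4 ≤ ε / 2 * ((2:ℝ) ^ (P.s * k0) / (2000 * (k0:ℝ) ^ 3)))
    (hoth : ∑ n ∈ (Finset.Ico 1 (2 ^ k0)).filter (fun n => ¬ P.Ord k0 n), S.WW n ≤
      ε / 4000 * ((2 : ℝ) ^ (P.s * k0) / k0 ^ 3)) :
    CellOK S ε K (0, 0) (Finset.Ico 1 (2 ^ k0)) := by
  set G : ℝ := (2:ℝ) ^ (P.s * k0) / (2000 * (k0:ℝ) ^ 3) with hG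
  have hk' : (1:ℝ) ≤ (k0:ℝ) := by exact_mod_cast hk0
  have hG0 : 0 < G := by positivity
  refine cellOK_of hm hk0 S hε.le (0, 0) (Finset.Ico 1 (2 ^ k0))
    ((Finset.Ico 1 (2 ^ k0)).filter (P.Ord k0)) (Finset.filter_subset _ _)
    (fun n hn => (Finset.mem_Ico.1 hn).1)
    (fun t n => if 2 ^ (k0 - 1) ≤ n then P.v (k0 - 1) / 16 else 0)
    (fun n => P.sg k0 n * P.v (Nat.log 2 n) / 4)
    (fun _ => 0) G hG0 ?_ ?_ ?_ ?_ ?_ ?_
  · intro t ht n hn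
    rw [Finset.mem_filter, Finset.mem_Ico] at hn
    rw [ft_ord hw S t hn.2]
    have hcix : P.cix k0 n = (0, 0) := by rw [Par.cix, if_pos hn.1.2]
    rw [hcix]
    by_cases h : 2 ^ (k0 - 1) ≤ n
    · rw [if_pos h, if_pos h]
      have : Nat.log 2 n = k0 - 1 := by
        apply Nat.log_eq_of_pow_le_of_lt_pow h
        rw [Nat.sub_add_cancel hk0]
        exact hn.1.2
      rw [this]
      ring
    · rw [if_neg h, if_neg h]
      ring
  · intro t ht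
    rw [← Finset.sum_filter, Finset.sum_const, nsmul_eq_mul]
    have e : ((Finset.Ico 1 (2 ^ k0)).filter (P.Ord k0)).filter (fun n => 2 ^ (k0 - 1) ≤ n) =
        (Finset.Ico (2 ^ (k0 - 1)) (2 ^ k0)).filter (P.Ord k0) := by
      ext n
      simp only [Finset.mem_filter, Finset.mem_Ico]
      constructor
      · rintro ⟨⟨⟨-, h2⟩, h3⟩, h4⟩
        exact ⟨⟨h4, h2⟩, h3⟩
      · rintro ⟨⟨h1, h2⟩, h3⟩
        exact ⟨⟨⟨(Nat.one_le_two_pow).trans h1, h2⟩, h3⟩, h1⟩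
    rw [e]
    exact num_init h0 hk0 hcnt
  · exact ((sum_sg_blocks h0 hsg k0 k0).trans (sum_v_le h0 k0)).trans hv
  · have e : Finset.Ico 1 (2 ^ k0) \ (Finset.Ico 1 (2 ^ k0)).filter (P.Ord k0) =
        (Finset.Ico 1 (2 ^ k0)).filter (fun n => ¬ P.Ord k0 n) := by
      ext n
      simp only [Finset.mem_sdiff, Finset.mem_filter]
      tauto
    rw [e]
    refine hoth.trans (le_of_eq ?_)
    rw [hG]
    field_simp
    ring
  · intro t t' ht ht' D hD n hn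
    simp
  · simp only [Finset.sum_const_zero]
    positivity

theorem system (P : Par) (h0 : PhiFacts P) (h1 : SizeFacts P) (hc : CellFacts P) (hd : CdFacts P)
    (hw : WFacts P) (hoc : OthersCell P) (hoi : OthersInit P) (hog : OrdGood P) (hi : OrdInit P)
    (hsg : SgSum P) (hm : Majorant P) (ho : FtOwn P) (hf : FixedPoint) : System P := by
  obtain ⟨K, hK, hKown⟩ := ho
  set ε : ℝ := 1 / (2 * (1 + K)) with hεdef
  have hε : 0 < ε := by positivity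
  have hεK : ε * (1 + K) ≤ 1 / 2 := by
    apply le_of_eq
    rw [hεdef]; field_simp
  obtain ⟨K2, hK2⟩ := hoc (ε / 2) (by positivity)
  obtain ⟨K3, hK3⟩ := hoi (ε / 4000) (by positivity)
  obtain ⟨K4, hK4⟩ := hog
  obtain ⟨K5, hK5⟩ := hi
  obtain ⟨K6, hK6⟩ := num_v h0 h1 hε
  obtain ⟨K7, hK7⟩ := num_G0 h0 hε
  obtain ⟨K1, hK1⟩ := h1
  refine ⟨K1 + K2 + K3 + K4 + K5 + K6 + K7 + 3, fun k0 hk0 hfb S => ?_⟩
  have key : ∀ i : ℕ × ℕ, ∃ (B R : (ℕ × ℕ → ℝ) → ℝ) (G : ℝ), (0 < G ∧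
    (∀ t : ℕ × ℕ → ℝ, (∀ i, |t i| ≤ 1) → G ≤ B t) ∧
    (∀ t : ℕ × ℕ → ℝ, (∀ i, |t i| ≤ 1) → |R t| ≤ ε * G) ∧
    (∀ t t' : ℕ × ℕ → ℝ, (∀ i, |t i| ≤ 1) → (∀ i, |t' i| ≤ 1) → ∀ D : ℝ,
      (∀ i, |t i - t' i| ≤ D) → |B t - B t'| ≤ K * G * D) ∧
    (∀ t t' : ℕ × ℕ → ℝ, (∀ i, |t i| ≤ 1) → (∀ i, |t' i| ≤ 1) → ∀ D : ℝ,
      (∀ i, |t i - t' i| ≤ D) → |R t - R t'| ≤ ε * G * D)) ∧
    (k0 ≤ i.1 → i.2 < 2 ^ (i.1 - P.e i.1) → ∀ t : ℕ × ℕ → ℝ, (∀ i, |t i| ≤ 1) →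
      ∑ n ∈ P.cell i.1 i.2, S.ft t n = t i * B t + R t) ∧
    (i = (0, 0) → ∀ t : ℕ × ℕ → ℝ, (∀ i, |t i| ≤ 1) →
      ∑ n ∈ Finset.Ico 1 (2 ^ k0), S.ft t n = t i * B t + R t) := by
    rintro ⟨k, j⟩
    by_cases hv : k0 ≤ k ∧ j < 2 ^ (k - P.e k)
    · obtain ⟨hk, hj⟩ := hv
      have hne : ((k, j) : ℕ × ℕ) ≠ (0, 0) := by
        intro h
        rw [Prod.mk.injEq] at h
        omega
      have hoth := hK2 k0 (by omega) hfb S k hk j hj
      have hok : CellOK S ε K (k, j) (P.cell k j) := by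
        by_cases hb : P.bad k j
        · refine cellOK_bad h0 hc hm (by omega) S hε (fun x hx t ht => ?_) hk hj hb ?_ hoth
          · exact hKown k0 (by omega) S x hx t ht
          · have := (hK1 k (by omega)).1
            omega
        · refine cellOK_good h0 hc hw hsg hm (by omega) S hε hK.le hk hj hb ?_ ?_ hoth
          · exact num_good h0 (by omega) (hK4 k0 (by omega) hfb k hk j hj hb)
          · exact hK6 k (by omega)
      obtain ⟨B, R, G, a1, a2, a3, a4, a5, a6⟩ := hok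
      exact ⟨B, R, G, ⟨a1, a2, a3, a4, a5⟩, fun _ _ => a6, fun h => absurd h hne⟩
    · by_cases hz : ((k, j) : ℕ × ℕ) = (0, 0)
      · have hok : CellOK S ε K (0, 0) (Finset.Ico 1 (2 ^ k0)) :=
          cellOK_init h0 hw hsg hm (by omega) S hε hK.le (hK5 k0 (by omega) hfb)
            (hK7 k0 (by omega)) (hK3 k0 (by omega) hfb S)
        obtain ⟨B, R, G, a1, a2, a3, a4, a5, a6⟩ := hok
        refine ⟨B, R, G, ⟨a1, a2, a3, a4, a5⟩, fun h1 h2 => absurd ⟨h1, h2⟩ hv, fun h => ?_⟩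
        rw [h]
        exact a6
      · refine ⟨fun _ => 1, fun _ => 0, 1, ⟨one_pos, fun _ _ => le_rfl, fun _ _ => ?_, ?_, ?_⟩,
          fun h1 h2 => absurd ⟨h1, h2⟩ hv, fun h => absurd h hz⟩
        · rw [abs_zero]; positivity
        · intro t t' _ _ D hD
          have hD0 : 0 ≤ D := (abs_nonneg _).trans (hD (0, 0))
          simp only [sub_self, abs_zero]
          positivity
        · intro t t' _ _ D hD
          have hD0 : 0 ≤ D := (abs_nonneg _).trans (hD (0, 0))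
          simp only [sub_self, abs_zero]
          positivity
  choose B R G hBRG hcell hinit using key
  obtain ⟨t, ht, hsol⟩ := hf (ι := ℕ × ℕ) (fun t i => B i t) (fun t i => R i t) G ε K
    (fun i => (hBRG i).1) hε.le hK.le hεK (fun t ht i => (hBRG i).2.1 t ht)
    (fun t ht i => (hBRG i).2.2.1 t ht)
    (fun t t' ht ht' D hD i => (hBRG i).2.2.2.1 t t' ht ht' D hD)
    (fun t t' ht ht' D hD i => (hBRG i).2.2.2.2 t t' ht ht' D hD)
  refine ⟨t, ht, ?_, fun k hk j hj => ?_⟩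
  · rw [hinit (0, 0) rfl t ht]
    exact hsol (0, 0)
  · rw [hcell (k, j) hk hj t ht]
    exact hsol (k, j)

end Pool.Agent.Helper15.QRH
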